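import Pool.Agent.X171.EL.Stm

/-!
# Part EL_WAL (MP_32ff52_an): the Walsh functions and the set function `q`
-/

set_option autoImplicit false

open MeasureTheory Set
open scoped ENNReal InnerProductSpace

namespace Pool.Agent.X17.ELW

open Pool.Agent.X171.EL

noncomputable section

/-- the sign -/
def r (b : Bool) : ℝ := if b then -1 else 1

lemma r_mul (b : Bool) : r b * r b = 1 := by
  cases b <;> simp [r]

lemma r_cont : Continuous r := continuous_of_discreteTopology

/-- Walsh functions -/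
def chi (S : Finset ℕ) : C(Om, ℝ) where
  toFun ω := ∏ i ∈ S, r (ω i)
  continuous_toFun := continuous_finsetProd _ fun i _ => r_cont.comp (continuous_apply i)

lemma chi_apply (S : Finset ℕ) (ω : Om) : chi S ω = ∏ i ∈ S, r (ω i) := rfl

lemma chi_mul (S T : Finset ℕ) (ω : Om) : chi S ω * chi T ω = chi (symmDiff S T) ω := by
  classical
  simp only [chi_apply]
  have h : ∀ V : Finset ℕ, V ⊆ S ∪ T → ∏ i ∈ V, r (ω i) =
      ∏ i ∈ S ∪ T, if i ∈ V then r (ω i) else 1 := fun V hV => by
    rw [Finset.prod_ite_mem, Finset.inter_eq_right.2 hV]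
  have hsd : symmDiff S T ⊆ S ∪ T := by
    intro i hi
    rcases Finset.mem_symmDiff.1 hi with h | h
    · exact Finset.mem_union_left _ h.1
    · exact Finset.mem_union_right _ h.1
  rw [h S Finset.subset_union_left, h T Finset.subset_union_right, h _ hsd,
    ← Finset.prod_mul_distrib]
  refine Finset.prod_congr rfl fun i _ => ?_
  by_cases h1 : i ∈ S <;> by_cases h2 : i ∈ T <;> simp [h1, h2, Finset.mem_symmDiff, r_mul]

lemma integral_r : ∫ b, r b ∂coin = 0 := by
  unfold coin
  rw [integral_fintype (by exact Integrable.of_finite)]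
  simp [r, measureReal_def, PMF.toMeasure_apply_singleton]

lemma integral_chi (S : Finset ℕ) (hS : S.Nonempty) : ∫ ω, chi S ω ∂Pr = 0 := by
  have h1 : ∀ ω : Om, chi S ω = (fun x : (i : S) → Bool => ∏ i : S, r (x i)) (S.restrict ω) := by
    intro ω
    simp only [chi_apply, Finset.restrict]
    exact (Finset.prod_coe_sort S fun i => r (ω i)).symm
  simp only [h1]
  unfold Pr
  rw [integral_restrict_infinitePi (μ := fun _ : ℕ => coin)
    (f := fun x : (i : S) → Bool => ∏ i : S, r (x i))
    (Measurable.of_discrete).aestronglyMeasurable]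
  rw [integral_fintype_prod_eq_prod (μ := fun _ : S => coin) (fun (_ : S) (b : Bool) => r b)]
  obtain ⟨i, hi⟩ := hS
  exact Finset.prod_eq_zero (Finset.mem_univ (⟨i, hi⟩ : S)) integral_r

lemma integral_chi_empty : ∫ ω, chi ∅ ω ∂Pr = 1 := by
  simp [chi_apply]

/-- Walsh functions in `L_2` -/
def cL (S : Finset ℕ) : X2 := ContinuousMap.toLp (E := ℝ) 2 Pr ℝ (chi S)

lemma cL_coe (S : Finset ℕ) : cL S =ᵐ[Pr] chi S := ContinuousMap.coeFn_toLp Pr (chi S)

lemma orth : Orthonormal ℝ cL := by
  classical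
  rw [orthonormal_iff_ite]
  intro S T
  unfold cL
  rw [ContinuousMap.inner_toLp Pr (chi S) (chi T)]
  have h1 : ∀ ω, chi T ω * (starRingEnd ℝ) (chi S ω) = chi (symmDiff T S) ω := fun ω => by
    rw [conj_trivial, chi_mul]
  simp only [h1]
  split_ifs with h
  · subst h
    rw [symmDiff_self]
    exact integral_chi_empty
  · refine integral_chi _ ?_
    rw [Finset.nonempty_iff_ne_empty]
    intro h2
    exact h (symmDiff_eq_bot.1 h2).symm

lemma adj : Subalgebra.toSubmodule (Algebra.adjoin ℝ (range chi)) = Submodule.span ℝ (range chi) := by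
  apply Algebra.adjoin_eq_span_of_subset
  refine Subset.trans ?_ Submodule.subset_span
  intro x hx
  refine Submonoid.closure_induction (fun _ => id) ⟨∅, ?_⟩ ?_ hx
  · ext ω
    simp [chi_apply]
  · rintro - - - - ⟨S, rfl⟩ ⟨T, rfl⟩
    refine ⟨symmDiff S T, ?_⟩
    ext ω
    exact (chi_mul S T ω).symm

lemma sep : (Algebra.adjoin ℝ (range chi)).SeparatesPoints := by
  intro x y hxy
  obtain ⟨i, hi⟩ := Function.ne_iff.1 hxy
  refine ⟨_, ⟨chi {i}, Algebra.subset_adjoin ⟨{i}, rfl⟩, rfl⟩, ?_⟩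
  simp only [chi_apply, Finset.prod_singleton]
  cases hx : x i <;> cases hy : y i <;> simp_all [r] <;> norm_num

lemma dense_chi : (Submodule.span ℝ (range chi)).topologicalClosure = ⊤ := by
  rw [← adj]
  exact congr_arg Subalgebra.toSubmodule
    (ContinuousMap.subalgebra_topologicalClosure_eq_top_of_separatesPoints _ sep)

lemma dense_cL : (Submodule.span ℝ (range cL)).topologicalClosure = ⊤ := by
  have h := (ContinuousMap.toLp_denseRange ℝ Pr ℝ (p := 2) (by simp)).topologicalClosure_map_submodule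
      dense_chi
  rw [Submodule.map_span, ← range_comp] at h
  exact h

/-- the Walsh basis -/
def bas : HilbertBasis (Finset ℕ) ℝ X2 := HilbertBasis.mk orth dense_cL.ge

lemma bas_apply (S : Finset ℕ) : bas S = cL S := by
  unfold bas
  rw [HilbertBasis.coe_mk]

/-- Walsh coefficients -/
def a (v : X2) (S : Finset ℕ) : ℝ := ⟪cL S, v⟫_ℝ

lemma a_eq (v : X2) (S : Finset ℕ) : a v S = ∫ ω, chi S ω * v ω ∂Pr := by
  unfold a
  rw [L2.inner_def]
  refine integral_congr_ae ?_
  filter_upwards [cL_coe S] with ω h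
  rw [h]
  simp [mul_comm]

lemma hasSum_a (v : X2) : HasSum (fun S => a v S ^ 2) (‖v‖ ^ 2) := by
  have h := bas.hasSum_inner_mul_inner v v
  rw [real_inner_self_eq_norm_sq] at h
  have e : (fun S => a v S ^ 2) = fun S => ⟪v, bas S⟫_ℝ * ⟪bas S, v⟫_ℝ := by
    funext S
    rw [bas_apply, real_inner_comm (cL S) v]
    unfold a
    ring
  rw [e]
  exact h

open Classical in
/-- the weights -/
def wt (A : Set ℕ) (S : Finset ℕ) : ℝ := ((S.filter (· ∈ A)).card : ℝ) / S.card

lemma wt_nonneg (A : Set ℕ) (S : Finset ℕ) : 0 ≤ wt A S := by unfold wt; positivity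

lemma wt_le (A : Set ℕ) (S : Finset ℕ) : wt A S ≤ 1 := by
  classical
  unfold wt
  apply div_le_one_of_le₀
  · have h := Finset.card_filter_le S (fun i => i ∈ A)
    exact_mod_cast h
  · positivity

lemma wt_add {A B : Set ℕ} (h : Disjoint A B) (S : Finset ℕ) :
    wt (A ∪ B) S = wt A S + wt B S := by
  classical
  unfold wt
  rw [← add_div]
  congr 1
  have h1 : S.filter (· ∈ A ∪ B) = S.filter (· ∈ A) ∪ S.filter (· ∈ B) := by
    ext i
    simp only [Finset.mem_filter, Set.mem_union, Finset.mem_union]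
    tauto
  have hd : Disjoint (S.filter (· ∈ A)) (S.filter (· ∈ B)) := by
    rw [Finset.disjoint_left]
    intro i hi hi'
    exact Set.disjoint_left.1 h (Finset.mem_filter.1 hi).2 (Finset.mem_filter.1 hi').2
  have h2 := congrArg Finset.card h1
  rw [Finset.card_union_of_disjoint hd] at h2
  have h3 : ((S.filter (· ∈ A ∪ B)).card : ℝ) = ((S.filter (· ∈ A)).card : ℝ) +
      ((S.filter (· ∈ B)).card : ℝ) := by exact_mod_cast h2
  convert h3

lemma wt_univ (S : Finset ℕ) : wt univ S = if S = ∅ then 0 else 1 := by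
  classical
  unfold wt
  split_ifs with h
  · simp [h]
  · have : (S.card : ℝ) ≠ 0 := by simpa using h
    simp [this]

/-- the set function -/
def q (A : Set ℕ) (v : X2) : ℝ := ∑' S, wt A S * a v S ^ 2

lemma summ (A : Set ℕ) (v : X2) : Summable fun S => wt A S * a v S ^ 2 := by
  refine Summable.of_nonneg_of_le (fun S => mul_nonneg (wt_nonneg A S) (sq_nonneg _)) (fun S => ?_)
    (hasSum_a v).summable
  exact mul_le_of_le_one_left (sq_nonneg _) (wt_le A S)

lemma bessel (v : X2) (F : Finset (Finset ℕ)) : ∑ S ∈ F, a v S ^ 2 ≤ ‖v‖ ^ 2 :=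
  sum_le_hasSum F (fun S _ => sq_nonneg _) (hasSum_a v)

lemma q_lip1 (A : Set ℕ) (v w : X2) : q A v - q A w ≤ ‖v - w‖ * (‖v‖ + ‖w‖) := by
  unfold q
  rw [← (summ A v).tsum_sub (summ A w)]
  refine ((summ A v).sub (summ A w)).tsum_le_of_sum_le fun F => ?_
  calc ∑ S ∈ F, (wt A S * a v S ^ 2 - wt A S * a w S ^ 2)
      ≤ ∑ S ∈ F, |a (v - w) S| * |a (v + w) S| := by
        refine Finset.sum_le_sum fun S _ => ?_
        have e1 : a (v - w) S = a v S - a w S := inner_sub_right _ _ _
        have e2 : a (v + w) S = a v S + a w S := inner_add_right _ _ _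
        have e3 : wt A S * a v S ^ 2 - wt A S * a w S ^ 2 =
            wt A S * (a (v - w) S * a (v + w) S) := by
          rw [e1, e2]
          ring
        rw [e3, ← abs_mul]
        calc wt A S * (a (v - w) S * a (v + w) S) ≤ wt A S * |a (v - w) S * a (v + w) S| :=
              mul_le_mul_of_nonneg_left (le_abs_self _) (wt_nonneg A S)
          _ ≤ |a (v - w) S * a (v + w) S| := mul_le_of_le_one_left (abs_nonneg _) (wt_le A S)
    _ ≤ √(∑ S ∈ F, |a (v - w) S| ^ 2) * √(∑ S ∈ F, |a (v + w) S| ^ 2) :=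
        Real.sum_mul_le_sqrt_mul_sqrt _ _ _
    _ ≤ ‖v - w‖ * ‖v + w‖ := by
        simp only [sq_abs]
        refine mul_le_mul ?_ ?_ (Real.sqrt_nonneg _) (norm_nonneg _)
        · exact Real.sqrt_le_iff.2 ⟨norm_nonneg _, bessel _ F⟩
        · exact Real.sqrt_le_iff.2 ⟨norm_nonneg _, bessel _ F⟩
    _ ≤ ‖v - w‖ * (‖v‖ + ‖w‖) := mul_le_mul_of_nonneg_left (norm_add_le _ _) (norm_nonneg _)

lemma a_comp (π : Equiv.Perm ℕ) (h : MeasurePreserving (pm π) Pr Pr) (v : X2) (S : Finset ℕ) :
    a (Lp.compMeasurePreserving (pm π) h v) S = a v (S.map π.symm.toEmbedding) := by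
  rw [a_eq, a_eq]
  set T := S.map π.symm.toEmbedding with hT
  have h1 : ∀ ω : Om, chi S ω = chi T (pm π ω) := by
    intro ω
    rw [hT]
    simp [chi_apply, pm, Finset.prod_map]
  have h2 : ∫ ω, chi S ω * (Lp.compMeasurePreserving (pm π) h v) ω ∂Pr =
      ∫ ω, (fun ω => chi T ω * v ω) (pm π ω) ∂Pr := by
    refine integral_congr_ae ?_
    filter_upwards [Lp.coeFn_compMeasurePreserving v h] with ω hω
    rw [hω, h1]
    rfl
  rw [h2]
  have hg : AEStronglyMeasurable (fun ω => chi T ω * v ω) Pr :=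
    (chi T).continuous.aestronglyMeasurable.mul (Lp.aestronglyMeasurable v)
  have h3 := integral_map (μ := Pr) (φ := pm π) h.measurable.aemeasurable
    (f := fun ω => chi T ω * v ω) (by rw [h.map_eq]; exact hg)
  rw [h.map_eq] at h3
  exact h3.symm

lemma wt_map (π : Equiv.Perm ℕ) (A : Set ℕ) (S : Finset ℕ) :
    wt A S = wt (π ⁻¹' A) (S.map π.symm.toEmbedding) := by
  classical
  unfold wt
  rw [Finset.filter_map, Finset.card_map, Finset.card_map]
  congr 3
  ext i
  simp

theorem t_WAL : S_WAL := by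
  refine ⟨q, ?_, ?_, ?_, ?_, ?_⟩
  · intro A v
    exact tsum_nonneg fun S => mul_nonneg (wt_nonneg A S) (sq_nonneg _)
  · intro A B hAB v
    unfold q
    rw [← (summ A v).tsum_add (summ B v)]
    refine tsum_congr fun S => ?_
    rw [wt_add hAB]
    ring
  · intro A v w
    rw [abs_sub_le_iff]
    refine ⟨q_lip1 A v w, ?_⟩
    have := q_lip1 A w v
    rwa [norm_sub_rev, add_comm ‖w‖] at this
  · intro v
    have h0 : a v ∅ = ∫ ω, v ω ∂Pr := by
      rw [a_eq]
      simp [chi_apply]
    rw [← h0]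
    have h1 := (hasSum_a v).sub (hasSum_ite_eq (∅ : Finset ℕ) (a v ∅ ^ 2))
    have h2 : (fun S => wt univ S * a v S ^ 2) =
        fun S => a v S ^ 2 - (if S = ∅ then a v ∅ ^ 2 else 0) := by
      funext S
      rw [wt_univ]
      split_ifs with h
      · subst h
        ring
      · ring
    unfold q
    rw [h2]
    exact h1.tsum_eq
  · intro π h A v
    unfold q
    rw [← (π.symm.finsetCongr).tsum_eq fun T => wt (π ⁻¹' A) T * a v T ^ 2]
    refine tsum_congr fun S => ?_
    rw [a_comp, wt_map π A S]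
    rfl

end

end Pool.Agent.X17.ELW
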